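import Pool.Agent.Lib.MP_b5021c_nt.IfaceKV
import Pool.Agent.Lib.MP_b5021c_nt.IfaceE3V
import Pool.Agent.Lib.MP_b5021c_nt.E.H12.B2
import Pool.Agent.Lib.MP_b5021c_nt.E.H38.Tpf
import Pool.Agent.Lib.MP_b5021c_nt.E1.Snt
import Pool.Agent.Lib.MP_b5021c_nt.E2.H65.Trm
import Pool.Agent.Lib.MP_b5021c_nt.E2.H65.Tro
import Pool.Agent.Lib.MP_b5021c_nt.KE.H96.Two
import Pool.Agent.Lib.MP_b5021c_nt.W.H1.Car
import Pool.Agent.Lib.MP_b5021c_nt.B.H02.Uni
import Pool.Agent.Lib.MP_b5021c_nt.B.H07.Zfi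

/-!
# MP_b5021c_nt, ALL THETA, K EVEN without levels, row KV_J2: `j = 2` (PaperKV.md 9.3)

The masses `t_i` of the closing have the sum `Re (2 E / V - 1)` on the circle; its mean is odd
(value one at `-1`), at least two (two factors, the closing is drop free) and at most three: so it
is three, there is no singular part, and the Poisson mean at `a` is at most `3 + 2 a`.
-/

namespace Pool.Agent.B5.KV88

open scoped LaurentPolynomial
open Polynomial Metric
open Pool.Agent.B5 Pool.Agent.B5.Nr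
open Pool.Agent.B5.Nr.Sch (Loc SP aeval_map_real)
open Pool.Agent.B5.Nr.Car (Cara)
open Pool.Agent.B5.H12 (Nz)

/-- No singular part: equality at the centre gives equality on the real axis. -/
theorem no_sing (hPav : PavS) {q v r : ℂ[X]} (hq : ∀ z : ℂ, ‖z‖ ≤ 1 → q.eval z ≠ 0)
    (hv : ∀ z : ℂ, ‖z‖ < 1 → v.eval z ≠ 0)
    (hle : ∀ z : ℂ, ‖z‖ = 1 → ‖v.eval z - q.eval z‖ ≤ ‖q.eval z‖)
    (hre : ∀ z : ℂ, ‖z‖ = 1 → v.eval z ≠ 0 → (r.eval z).re = 2 * (q.eval z / v.eval z).re - 1)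
    (h0 : 2 * (q.eval 0 / v.eval 0).re - 1 ≤ (r.eval 0).re) {y : ℝ} (hy0 : 0 ≤ y) (hy : y < 1) :
    2 * (q.eval (y : ℂ) / v.eval (y : ℂ)).re - 1 ≤ (r.eval (y : ℂ)).re := by
  have hrr : ∀ z : ℂ, (((2 : ℝ) : ℂ) * (q.eval z / v.eval z) - 1 - r.eval z).re =
      2 * (q.eval z / v.eval z).re - 1 - (r.eval z).re := by
    intro z
    rw [Complex.sub_re, Complex.sub_re, Complex.re_ofReal_mul, Complex.one_re]
  have hc : Cara (fun z => ((2 : ℝ) : ℂ) * (q.eval z / v.eval z) - 1 - r.eval z) := by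
    refine ⟨?_, fun z hz => ?_⟩
    · refine DifferentiableOn.sub (DifferentiableOn.sub_const (DifferentiableOn.const_mul ?_ _) _)
        r.differentiable.differentiableOn
      refine DifferentiableOn.div q.differentiable.differentiableOn
        v.differentiable.differentiableOn fun z hz => ?_
      exact hv z (by simpa using hz)
    · rw [hrr]
      have h1 := hPav q v r z hq hv hle hz hre
      linarith
  have h1 := hc.up (x := 0) le_rfl hy0 hy
  rw [hrr, hrr, Complex.ofReal_zero] at h1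
  have h2 : (2 * (q.eval 0 / v.eval 0).re - 1 - (r.eval 0).re) * ((1 - 0) * (1 + y)) ≤ 0 :=
    mul_nonpos_of_nonpos_of_nonneg (by linarith) (by nlinarith)
  have h3 : (2 * (q.eval (y : ℂ) / v.eval (y : ℂ)).re - 1 - (r.eval (y : ℂ)).re) *
      ((1 + 0) * (1 - y)) ≤ 0 := h1.trans h2
  have h4 : 0 < (1 + 0) * (1 - y) := by linarith
  have h5 := nonpos_of_mul_nonpos_left h3 h4
  linarith

/-- Parity of the value at `-1`. -/
theorem parity {p : RO ℤ} {r : ℂ[X]} (h0 : r.coeff 0 = Coef.emb (p.coeff 0))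
    (h1 : ∀ n : ℕ, r.coeff (n + 1) = 2 * Coef.emb (p.coeff ((n : ℤ) + 1))) :
    ∃ m : ℤ, r.eval (-1) = ((p.coeff 0 + 2 * m : ℤ) : ℂ) := by
  refine ⟨∑ i ∈ Finset.range r.natDegree, p.coeff ((i : ℤ) + 1) * (-1) ^ (i + 1), ?_⟩
  rw [eval_eq_sum_range, Finset.sum_range_succ', h0, H12.emb_int]
  push_cast
  rw [Finset.mul_sum, pow_zero, mul_one, add_comm]
  congr 1
  refine Finset.sum_congr rfl fun i _ => ?_
  rw [h1, H12.emb_int]
  ring

/-- Upper bound for the Poisson mean of a mass of mean at most two. -/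
theorem am_le (hLin : E1.LinS) {p : RO ℤ} (hp : Nz p) (h1 : 1 ≤ p.coeff 0) (h2 : p.coeff 0 ≤ 2)
    {a : ℝ} (ha : 0 ≤ a) (ha1 : a < 1) :
    Am a p ≤ p.coeff 0 + 2 * a * (p.coeff 0 - 1) := by
  rcases (by omega : p.coeff 0 = 1 ∨ p.coeff 0 = 2) with h | h
  · rw [hp.one h, h]
    push_cast
    linarith
  · rw [h]
    rcases hp.two hLin h with h3 | ⟨m, e, hm, he, h3⟩
    · rw [h3, H18.Am_single]
      push_cast
      simp
      linarith
    · rw [h3, H12.Am_wt e m]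
      have h4 : |a ^ m.natAbs| ≤ a := by
        rw [abs_pow, abs_of_nonneg ha]
        calc a ^ m.natAbs ≤ a ^ 1 := pow_le_pow_of_le_one ha ha1.le (by omega)
          _ = a := pow_one a
      obtain ⟨h5, h6⟩ := _root_.abs_le.mp h4
      rcases he with rfl | rfl
      · push_cast; linarith
      · push_cast; linarith

/-- Sum of masses. -/
theorem am_sum {n : ℕ} (a : ℝ) (t : Fin n → RO ℤ) : Am a (∑ i, t i) = ∑ i, Am a (t i) := by
  classical
  have h : ∀ s : Finset (Fin n), Am a (∑ i ∈ s, t i) = ∑ i ∈ s, Am a (t i) := by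
    intro s
    induction s using Finset.induction_on with
    | empty => simp [Am]
    | insert i s hi ih => rw [Finset.sum_insert hi, Finset.sum_insert hi, H18.Am_add, ih]
  exact h Finset.univ

/-- The number of factors. -/
theorem n_ge {L : Type} [AddCommGroup L] [Module.Free ℤ L] [Module.Finite ℤ L] {n : ℕ}
    (c : RO ℤ) (G : Fin n → AO ℤ L) (b : Fin n → L) (e : Fin n → (RO ℤ)ˣ)
    (hG : ∀ i, G i = cst ((G i).coeff 0) * sfa (b i) (e i)) :
    rk (supp (cst c * ∏ i, G i)) ≤ n := by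
  have h1 : ∀ a ∈ supp (cst c * ∏ i, G i), a ∈ Submodule.span ℤ (Set.range b) := by
    refine H38.Tpf.supp_mul_mem _ _ _ (H38.Tpf.supp_cst_mem _ c)
      (H38.Tpf.supp_prod_mem _ _ _ fun i => ?_)
    rw [hG i]
    exact H38.Tpf.supp_mul_mem _ _ _ (H38.Tpf.supp_cst_mem _ _)
      (H38.Tpf.supp_sfa_mem _ (b i) (Submodule.subset_span (Set.mem_range_self i)) (e i))
  have h2 : Submodule.span ℤ (supp (cst c * ∏ i, G i)) ≤ Submodule.span ℤ (Set.range b) :=
    Submodule.span_le.mpr h1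
  calc rk (supp (cst c * ∏ i, G i)) ≤ Module.finrank ℤ (Submodule.span ℤ (Set.range b)) :=
        Submodule.finrank_mono h2
    _ ≤ n := by
        have := finrank_range_le_card (R := ℤ) (b := b)
        rwa [Fintype.card_fin] at this

/-- The class of a unit multiple. -/
theorem classV_one {V : ℤ[X]} {x : RO ℤ} (u : (RO ℤ)ˣ) (h : (u : RO ℤ) * x = toLaurent V)
    (h0 : V.coeff 0 = 1) (hz : ∀ z : ℂ, ‖z‖ < 1 → (V.map (Coef.emb : ℤ →+* ℂ)).eval z ≠ 0) :
    ClassV 1 x := by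
  obtain ⟨n, s, hs, hu⟩ := (Pool.Agent.B5.H02.unit_laurent ((u⁻¹ : (RO ℤ)ˣ) : RO ℤ)).1 (u⁻¹).isUnit
  have hx : x = ((u⁻¹ : (RO ℤ)ˣ) : RO ℤ) * toLaurent V := by
    rw [← h, ← mul_assoc, Units.inv_mul, one_mul]
  refine ⟨le_rfl, n, C s * V, ?_, ?_, ?_⟩
  · rw [hx, hu, map_mul, toLaurent_C]
    ring
  · rw [coeff_C_mul, h0, mul_one]
    rcases Int.isUnit_iff.1 hs with h1 | h1 <;> rw [h1] <;> simp
  · intro z hz1
    rw [Polynomial.map_mul, map_C, eval_mul, eval_C]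
    refine mul_ne_zero ?_ (hz z hz1)
    rcases Int.isUnit_iff.1 hs with h1 | h1 <;> rw [h1] <;> simp

/-- **Row KV_J2.** -/
theorem kvj (hFD : FDS) (hDus : DusS) (hTpf : TpfS) (hTpm : TpmS) (hPai : PaiS) (hPmf : PmfS)
    (hPav : PavS) (hMm : MmulS) (hMV : MVS) (hE2 : E2S) (hEv : EvRS) (hZf : ZfinS)
    (hLin : E1.LinS) : KvjS := by
  intro P L _ _ _ _ _ phi G T eta u q f E a hK
  obtain ⟨hEv1, hEv2, hEv3, hEv4⟩ := hEv ℤ
  have hfr : Module.finrank ℤ L = 3 := by have := hK.fr; omega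
  have hrk2 : 2 ≤ Module.finrank ℤ L := by omega
  obtain ⟨hQ0, -, -, -, -, hray⟩ := hE2 ℤ P L phi G hK.dd hrk2
  obtain ⟨hle, -⟩ := hray T hK.ray
  have ha := hK.loc.a0
  have ha1 := hK.loc.a1
  have hE0 : E.coeff 0 = 2 := by have := hK.E0; exact_mod_cast this
  obtain ⟨V, hVd⟩ : ∃ V : ℤ[X], V = E - (1 + X) * f := ⟨_, rfl⟩
  have hV0 : V.coeff 0 = 1 := by
    rw [hVd, coeff_sub, mul_coeff_zero, hE0, hK.f0]; simp
  obtain ⟨V', hV'⟩ : ∃ V' : RO ℤ, V' = G.coeff 0 + (eta : RO ℤ) * G.coeff T := ⟨_, rfl⟩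
  have huV : (u : RO ℤ) * V' = toLaurent V := by
    rw [hV', mul_add, hK.g0, hK.gT, hVd, map_sub]; ring
  obtain ⟨qc, hqc⟩ : ∃ qc : ℂ[X], qc = E.map (Coef.emb : ℤ →+* ℂ) := ⟨_, rfl⟩
  obtain ⟨vc, hvc⟩ : ∃ vc : ℂ[X], vc = V.map (Coef.emb : ℤ →+* ℂ) := ⟨_, rfl⟩
  have aq : ∀ z : ℂ, qc.eval z = aeval z E := fun z => by rw [hqc, KE.ev_map]
  have av : ∀ z : ℂ, vc.eval z = aeval z V := fun z => by rw [hvc, KE.ev_map]
  have evq : ∀ z : Circle, evR z (u : RO ℤ) * evR z (G.coeff 0) = qc.eval (z : ℂ) := fun z => by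
    rw [← map_mul, hK.g0, H07.evR_toLaurent, hqc]
  have evv : ∀ z : Circle, evR z (u : RO ℤ) * evR z V' = vc.eval (z : ℂ) := fun z => by
    rw [← map_mul, huV, H07.evR_toLaurent, hvc]
  have hu1 : ∀ z : Circle, ‖evR z (u : RO ℤ)‖ = 1 := fun z => hEv2 z _ u.isUnit
  have hu0 : ∀ z : Circle, evR z (u : RO ℤ) ≠ 0 := fun z => by
    rw [← norm_pos_iff, hu1]; norm_num
  have mk : ∀ z : ℂ, ‖z‖ = 1 → ∃ w : Circle, (w : ℂ) = z := fun z hz =>
    ⟨⟨z, mem_sphere_zero_iff_norm.mpr hz⟩, rfl⟩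
  have hqn : ∀ z : ℂ, ‖z‖ ≤ 1 → qc.eval z ≠ 0 := fun z hz => by
    rw [aq]; exact hK.Ez z hz
  have hlq : ∀ z : ℂ, ‖z‖ = 1 → ‖vc.eval z - qc.eval z‖ ≤ ‖qc.eval z‖ := by
    intro z hz
    obtain ⟨w, rfl⟩ := mk z hz
    have h1 : V' - G.coeff 0 = (eta : RO ℤ) * G.coeff T := by rw [hV']; ring
    have h2 : ‖evR w (V' - G.coeff 0)‖ ≤ ‖evR w (G.coeff 0)‖ := by
      rw [h1, map_mul, norm_mul, hEv2 w _ eta.isUnit, one_mul]
      exact hle w
    rw [← evq, ← evv, ← mul_sub, norm_mul, norm_mul, hu1, one_mul, one_mul, ← map_sub]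
    exact h2
  -- `V` has no zero in the open disc
  have hsp : SP (((1 + X) * f).map (Int.castRingHom ℝ)) (E.map (Int.castRingHom ℝ)) := by
    refine SP.of_circle (fun z hz => ?_) (fun z hz => ?_)
    · rw [aeval_map_real]; exact hK.Ez z hz
    · rw [aeval_map_real, aeval_map_real]
      have h1 := hlq z hz
      have h2 : vc.eval z - qc.eval z = -aeval z ((1 + X) * f) := by
        rw [aq, av, hVd, map_sub]; ring
      rw [h2, norm_neg, aq] at h1
      exact h1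
  have hvz : ∀ z : ℂ, ‖z‖ < 1 → vc.eval z ≠ 0 := by
    intro z hz h0
    rw [av, hVd, map_sub, sub_eq_zero] at h0
    have h1 := KE.sp_eq hsp hz (by rw [aeval_map_real, aeval_map_real, h0])
    have h2 := congrArg (fun p : ℝ[X] => p.coeff 0) h1
    simp only [coeff_map, mul_coeff_zero, hE0, hK.f0] at h2
    norm_num at h2
  have hCV : ClassV 1 V' := classV_one u huV hV0 (fun z hz => by rw [← hvc]; exact hvz z hz)
  have hquot : ∀ z : ℂ, ‖z‖ = 1 → evL z (G.coeff 0) / evL z V' = qc.eval z / vc.eval z := by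
    intro z hz
    obtain ⟨w, rfl⟩ := mk z hz
    rw [hEv1, hEv1, ← evq, ← evv, mul_div_mul_left _ _ (hu0 w)]
  have hci : CircleIntegrable (fun z => (evL z (G.coeff 0) / evL z V').re) 0 1 := by
    refine (circleIntegrable_congr fun z hz => ?_).mpr (hPai qc vc hqn hvz hlq)
    have hz1 : ‖z‖ = 1 := by simpa using hz
    simp only [hquot z hz1]
  -- the masses
  obtain ⟨hVne, hMV1⟩ := (hMV ℤ).1 1 V' hCV
  have hex : ∃ i1 : P, co phi i1 T = 1 := by
    by_contra hno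
    push Not at hno
    apply hK.ray.2.1
    apply hK.dd.inj
    rw [map_zero]
    funext i
    rcases hK.dd.bin T hK.ray.1 i with h | h
    · exact h
    · exact absurd h (hno i)
  obtain ⟨i1, h1⟩ := hex
  have hCC : CC phi G T i1 eta := ⟨hK.dd, hrk2, hK.ray, h1, by rw [← hV']; exact hVne⟩
  obtain ⟨c, n, H, hF⟩ := hFD ℤ P L phi G T i1 eta h1 hCC
  have hsmall : ∀ i, ¬ 1 < M ((H i).coeff 0) :=
    H65.not_big hMm c (fun i => (H i).coeff 0) V' (by rw [hV']; exact hF.v00) hVne hMV1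
  obtain ⟨b, fs, e, hu, hG, hdual⟩ := hDus ℤ P L phi G T i1 eta h1 c n H hF hsmall
  obtain ⟨lam, hT, -⟩ := hTpf ℤ P L phi G T i1 eta h1 c n H hF b fs e hu hG hdual
  rw [← hV'] at hT
  obtain ⟨Tm, hT0, hTn, hsum, -⟩ := hTpm ℤ (Ker (co phi i1)) 1 lam _ V' n b fs e hT hCV hci
  have hn2 : 2 ≤ n := by
    have h2 := hK.dr i1 h1
    have h3 := n_ge c H b e hG
    rw [← hF.eq] at h3
    omega
  -- nonnegativity
  have hNi : ∀ i, Nz ((Tm i).coeff 0) := by
    intro i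
    refine ⟨H65.rsh_coeff0 (Tm i) (hTn i).1, fun z => ?_⟩
    obtain ⟨α, -, hα⟩ := E1.flagsT (hT0 i) (hTn i)
    exact (Finset.sum_nonneg fun j _ => norm_nonneg _).trans (hα z)
  have hni : ∀ i, (Tm i).coeff 0 ≠ 0 := by
    intro i h0
    obtain ⟨α, hα0, hα⟩ := E1.flagsT (hT0 i) (hTn i)
    have h1 : {z : Circle | evR z ((Tm i).coeff (α 0)) = 0}.Finite := hZf ℤ _ (hα0 0)
    have h2 : {z : Circle | evR z ((Tm i).coeff (α 0)) = 0} = Set.univ := by
      apply Set.eq_univ_of_forall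
      intro z
      have h3 := hα z
      rw [h0, map_zero, Complex.zero_re] at h3
      have h4 : ‖evR z ((Tm i).coeff (α 0))‖ ≤ ∑ j, ‖evR z ((Tm i).coeff (α j))‖ :=
        Finset.single_le_sum (f := fun j => ‖evR z ((Tm i).coeff (α j))‖)
          (fun j _ => norm_nonneg _) (Finset.mem_univ 0)
      exact norm_eq_zero.mp (le_antisymm (h4.trans h3) (norm_nonneg _))
    rw [h2] at h1
    have := H71.circle_inf
    exact Set.infinite_univ h1
  obtain ⟨t, ht⟩ : ∃ t : RO ℤ, t = ∑ i, (Tm i).coeff 0 := ⟨_, rfl⟩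
  have hti : t.coeff 0 = ∑ i, ((Tm i).coeff 0).coeff 0 := by rw [ht]; simp
  have hpos : ∀ i, 1 ≤ ((Tm i).coeff 0).coeff 0 := fun i => (hNi i).pos (hni i)
  have hrs : rsh t = t := by
    rw [ht, map_sum]
    exact Finset.sum_congr rfl fun i _ => (hNi i).1
  have hna : ‖(a : ℂ)‖ < 1 := by rw [Complex.norm_real, Real.norm_eq_abs, abs_of_pos ha]; exact ha1
  obtain ⟨r, hr0, hr1, hr2, hr3⟩ := hPmf ℤ t a hna hrs
  have hre : ∀ z : ℂ, ‖z‖ = 1 → vc.eval z ≠ 0 →
      (r.eval z).re = 2 * (qc.eval z / vc.eval z).re - 1 := by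
    intro z hz hvz0
    obtain ⟨w, rfl⟩ := mk z hz
    have hVw : evR w V' ≠ 0 := by
      intro h0
      apply hvz0
      rw [← evv, h0, mul_zero]
    have h2 := hsum w hVw
    rw [← ht, hr1 w, Nat.cast_one] at h2
    have h3 : (res (Ker (co phi i1)) G).coeff 0 = G.coeff 0 := res_coeff _ G 0
    rw [h3] at h2
    rw [← evq, ← evv, mul_div_mul_left _ _ (hu0 w)]
    linarith
  have hq0 : qc.eval 0 = 2 := by
    rw [hqc, ← coeff_zero_eq_eval_zero, coeff_map, hE0, H12.emb_int]; norm_num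
  have hv0 : vc.eval 0 = 1 := by
    rw [hvc, ← coeff_zero_eq_eval_zero, coeff_map, hV0, H12.emb_int]; norm_num
  have hr00 : (r.eval 0).re = t.coeff 0 := by
    rw [← coeff_zero_eq_eval_zero, hr0, H12.emb_int, Complex.intCast_re]
  have ht3 : t.coeff 0 ≤ 3 := by
    have h2 := hPav qc vc r 0 hqn hvz hlq (by simp) hre
    rw [hr00, hq0, hv0, div_one] at h2
    have h3 : ((2 : ℂ)).re = 2 := rfl
    rw [h3] at h2
    have h4 : (t.coeff 0 : ℝ) ≤ 3 := by linarith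
    exact_mod_cast h4
  have ht2 : (n : ℤ) ≤ t.coeff 0 := by
    rw [hti]
    calc (n : ℤ) = ∑ _i : Fin n, (1 : ℤ) := by simp
      _ ≤ _ := Finset.sum_le_sum fun i _ => hpos i
  -- parity
  have hodd : t.coeff 0 = 3 := by
    obtain ⟨m, hm⟩ := parity hr0 hr3
    have hm1 : aeval (-1 : ℂ) V = aeval (-1 : ℂ) E := by
      rw [hVd, map_sub, map_mul, map_add, map_one, aeval_X]
      ring
    have hq1 := hqn (-1) (by simp)
    have hqv : vc.eval (-1) = qc.eval (-1) := by rw [aq, av, hm1]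
    have h2 := hre (-1) (by simp) (by rw [hqv]; exact hq1)
    rw [hqv, div_self hq1, hm, Complex.intCast_re, Complex.one_re] at h2
    have h3 : ((t.coeff 0 + 2 * m : ℤ) : ℝ) = 1 := by linarith
    have h4 : t.coeff 0 + 2 * m = 1 := by exact_mod_cast h3
    omega
  -- the mean at `a`
  have hmain := no_sing hPav hqn hvz hlq hre (by
    rw [hr00, hq0, hv0, div_one, hodd]
    have h3 : ((2 : ℂ)).re = 2 := rfl
    rw [h3]; norm_num) ha.le ha1
  rw [← hr2, H18.Am_pmn a (by rw [abs_of_pos ha]; exact ha1)] at hmain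
  have hτ2 : ∀ i, ((Tm i).coeff 0).coeff 0 ≤ 2 := by
    intro i
    have h2 := Finset.add_sum_erase Finset.univ (fun i => ((Tm i).coeff 0).coeff 0)
      (Finset.mem_univ i)
    have h3 : ((Finset.univ.erase i).card : ℤ) ≤
        ∑ j ∈ Finset.univ.erase i, ((Tm j).coeff 0).coeff 0 := by
      calc ((Finset.univ.erase i).card : ℤ) = ∑ _j ∈ Finset.univ.erase i, (1 : ℤ) := by simp
        _ ≤ _ := Finset.sum_le_sum fun j _ => hpos j
    rw [Finset.card_erase_of_mem (Finset.mem_univ i), Finset.card_univ, Fintype.card_fin] at h3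
    rw [← hti, hodd] at h2
    omega
  have hAm : Am a t ≤ 3 + 2 * a := by
    rw [ht, am_sum]
    calc ∑ i, Am a ((Tm i).coeff 0) ≤ ∑ i, ((((Tm i).coeff 0).coeff 0 : ℝ) +
          2 * a * ((((Tm i).coeff 0).coeff 0 : ℝ) - 1)) :=
          Finset.sum_le_sum fun i _ => am_le hLin (hNi i) (hpos i) (hτ2 i) ha.le ha1
      _ = (t.coeff 0 : ℝ) + 2 * a * ((t.coeff 0 : ℝ) - n) := by
          rw [hti, Finset.sum_add_distrib, ← Finset.mul_sum, Finset.sum_sub_distrib]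
          push_cast
          simp
      _ ≤ 3 + 2 * a := by
          rw [hodd]
          have h2 : (2 : ℝ) ≤ n := by exact_mod_cast hn2
          push_cast
          nlinarith
  -- the value of `E / V` at `a`
  have hqa : aeval (a : ℂ) q = 0 := by
    obtain ⟨s, hs, -⟩ := hK.loc.s
    rw [← aeval_map_real, hs, map_mul, map_sub, aeval_X, aeval_C]
    simp
  have hfa : aeval (a : ℂ) f = a * aeval (a : ℂ) E := by
    have h2 := congrArg (fun p => aeval (a : ℂ) p) hK.eE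
    simp only [map_sub, map_mul, aeval_X, hqa, sub_zero] at h2
    exact h2
  have hVa : vc.eval (a : ℂ) = ((1 - a - a ^ 2 : ℝ) : ℂ) * qc.eval (a : ℂ) := by
    rw [aq, av, hVd, map_sub, map_mul, map_add, map_one, aeval_X, hfa]
    push_cast
    ring
  have hqa0 := hqn (a : ℂ) hna.le
  have hratio : qc.eval (a : ℂ) / vc.eval (a : ℂ) = (((1 - a - a ^ 2)⁻¹ : ℝ) : ℂ) := by
    rw [hVa, div_mul_cancel_right₀ hqa0]
    push_cast
    rfl
  rw [hratio, Complex.ofReal_re] at hmain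
  have haj : a < 1 / 2 := by have := hK.aj; exact_mod_cast this
  have hlt : a⁻¹ - a < 2 := by have := hK.lt; exact_mod_cast this
  have hd : 0 < 1 - a - a ^ 2 := by nlinarith
  have hlt2 : 1 < 2 * a + a ^ 2 := by
    have h2 : a * (a⁻¹ - a) < a * 2 := mul_lt_mul_of_pos_left hlt ha
    rw [mul_sub, mul_inv_cancel₀ ha.ne'] at h2
    nlinarith
  have hfin : 2 * (1 - a - a ^ 2)⁻¹ - 1 ≤ 3 + 2 * a := hmain.trans hAm
  have h5 : 2 * (1 - a - a ^ 2)⁻¹ ≤ 4 + 2 * a := by linarith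
  have h6 : 2 ≤ (4 + 2 * a) * (1 - a - a ^ 2) := by
    have h7 := mul_le_mul_of_nonneg_right h5 hd.le
    rwa [mul_assoc, inv_mul_cancel₀ hd.ne', mul_one] at h7
  nlinarith [mul_pos (by linarith : (0 : ℝ) < 1 + a) (by linarith : (0 : ℝ) < 2 * a + a ^ 2 - 1)]

end Pool.Agent.B5.KV88
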